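import Mathlib
import Pool.Agent.Lib.CHModel.Force
import Pool.Agent.Lib.CHModel.Zf
import Pool.Agent.Lib.MP_7c9e3d_gt.MainM

/-!
# It is consistent that there is a hereditarily normal manifold with a `G_δ`-diagonal which is not
metrizable

`CH E` is the continuum hypothesis, read in the structure `(M, E)` for the language of set theory:
the power set of `ω` is the image of an ordinal all of whose elements are countable.

* (i) There is a countable model of ZFC in which it holds (countably closed collapse).
* (ii) If it holds in the universe of sets then there is a hereditarily normal 2-manifold with a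
  `G_δ`-diagonal which is not metrizable.
-/

open Pool.Agent.Lib.Forcing
open Pool.Agent.Lib.MP_7c9e3d_gt
open Pool.Agent.Lib.CHModel

/-- (i) There is a countable model of ZFC in which the continuum hypothesis holds.
(ii) If the continuum hypothesis holds in the universe of sets, then not every hereditarily normal
manifold with a `G_δ`-diagonal is metrizable. -/
theorem Pool.Agent.Results.MP_7c9e3d_gt.ConsistentNo.result :
    (∃ (M : Type) (E : M → M → Prop), Countable M ∧ IsZFC M E ∧ CH E) ∧
    (CH (fun x y : ZFSet.{0} => x ∈ y) →
      ¬ ∀ (n : ℕ) (X : Type) [TopologicalSpace X] [T2Space X]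
        [ChartedSpace (EuclideanSpace ℝ (Fin n)) X],
        T5Space X → IsGδ (Set.diagonal X) → TopologicalSpace.MetrizableSpace X) :=
  ⟨exists_model, fun h => main_CH (by rw [ch_of_Ein h]; simp)⟩
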